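import Mathlib
import Pool.Agent.H27.Extreme

namespace Pool.Agent.Results.MP_6d480e_an.TwoClasses

open Pool.Agent.H27.Extreme

theorem result : ∃ (p n : ℕ), p.Prime ∧ 1 < n ∧ n < p ∧ ∃ E F : Finset (ZMod p),
    E.card = n ∧ F.card = n ∧ IsExtreme E ∧ IsExtreme F ∧
    ∀ a b : ZMod p, a ≠ 0 → F ≠ E.image fun x => a * x + b := by
  refine ⟨127, 64, by norm_num, by norm_num, by norm_num, supp P1 N1, supp P2 N2, c1, c2, e1, e2,
    fun a b ha h => ?_⟩
  obtain ⟨x, h1, h2⟩ := ne a b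
  have : a * x + b ∈ supp P2 N2 := by
    rw [h]; exact Finset.mem_image.2 ⟨x, by simpa [supp] using h1, rfl⟩
  exact (Finset.mem_filter.1 this).2 (h2.resolve_left ha)

end Pool.Agent.Results.MP_6d480e_an.TwoClasses
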